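import Mathlib

namespace FPF

/-- An orthonormal frame `e_0,…,e_5` (derivations of a commutative algebra `A` of functions) with its
Levi-Civita connection coefficients `Γ a b c = ⟨∇_{e_a} e_b, e_c⟩`. -/
structure FrameData (A : Type*) [CommRing A] [Algebra ℝ A] where
  e : Fin 6 → Derivation ℝ A A
  Γ : Fin 6 → Fin 6 → Fin 6 → A
  /-- the connection is metric -/
  anti : ∀ a b c, Γ a b c = - Γ a c b
  /-- the connection is torsion free -/
  tors : ∀ a b (f : A), e a (e b f) - e b (e a f) = ∑ c, (Γ a b c - Γ b a c) * e c f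
  /-- the frame is linearly independent -/
  ind : ∀ k : Fin 6 → A, (∀ f, ∑ d, k d * e d f = 0) → k = 0

variable {A : Type*} [CommRing A] [Algebra ℝ A] (F : FrameData A)

/-- curvature tensor `R a b c d = ⟨R(e_a,e_b)e_c, e_d⟩` -/
def Rm (a b c d : Fin 6) : A :=
  F.e a (F.Γ b c d) - F.e b (F.Γ a c d)
    + ∑ f, (F.Γ b c f * F.Γ a f d - F.Γ a c f * F.Γ b f d)
    - ∑ f, (F.Γ a b f - F.Γ b a f) * F.Γ f c d

/-- covariant derivatives of 1-, 2-, 3-, 4-tensors; the first index is the direction -/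
def nab1 (X : Fin 6 → A) (a b : Fin 6) : A := F.e a (X b) - ∑ g, F.Γ a b g * X g
def nab2 (β : Fin 6 → Fin 6 → A) (a b c : Fin 6) : A :=
  F.e a (β b c) - ∑ g, F.Γ a b g * β g c - ∑ g, F.Γ a c g * β b g
def nab3 (u : Fin 6 → Fin 6 → Fin 6 → A) (a b c d : Fin 6) : A :=
  F.e a (u b c d) - ∑ g, F.Γ a b g * u g c d - ∑ g, F.Γ a c g * u b g d
    - ∑ g, F.Γ a d g * u b c g
def nab4 (v : Fin 6 → Fin 6 → Fin 6 → Fin 6 → A) (a b c d f : Fin 6) : A :=
  F.e a (v b c d f) - ∑ g, F.Γ a b g * v g c d f - ∑ g, F.Γ a c g * v b g d f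
    - ∑ g, F.Γ a d g * v b c g f - ∑ g, F.Γ a f g * v b c d g

/-- exterior derivatives of 2- and 3-forms -/
def d2 (β : Fin 6 → Fin 6 → A) (a b c : Fin 6) : A :=
  nab2 F β a b c + nab2 F β b c a + nab2 F β c a b
def d3 (u : Fin 6 → Fin 6 → Fin 6 → A) (a b c d : Fin 6) : A :=
  nab3 F u a b c d - nab3 F u b a c d + nab3 F u c a b d - nab3 F u d a b c

/-- divergence of a 3-form and of a vector field -/
def del3 (u : Fin 6 → Fin 6 → Fin 6 → A) (b c : Fin 6) : A := ∑ a, nab3 F u a a b c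
def dv (X : Fin 6 → A) : A := ∑ a, nab1 F X a a

def Alt2 (β : Fin 6 → Fin 6 → A) : Prop := ∀ a b, β a b = - β b a
def Alt3 (u : Fin 6 → Fin 6 → Fin 6 → A) : Prop :=
  (∀ a b c, u a b c = - u b a c) ∧ (∀ a b c, u a b c = - u a c b)

/-- Weitzenboeck quadratic form on 3-forms -/
noncomputable def Tform (K : Fin 6 → Fin 6 → Fin 6 → Fin 6 → A) (u : Fin 6 → Fin 6 → Fin 6 → A) : A :=
  (1/2 : ℝ) • (∑ i, ∑ j, ∑ f, K i j i f * ∑ k, ∑ l, u f k l * u j k l)
    + ∑ i, ∑ j, ∑ k, ∑ f, K i j k f * ∑ l, u i f l * u j k l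

/-- wedge product of three 1-forms -/
def wedge (θ : Fin 3 → Fin 6 → A) (a b c : Fin 6) : A :=
  θ 0 a * θ 1 b * θ 2 c + θ 1 a * θ 2 b * θ 0 c + θ 2 a * θ 0 b * θ 1 c
    - θ 0 a * θ 2 b * θ 1 c - θ 2 a * θ 1 b * θ 0 c - θ 1 a * θ 0 b * θ 2 c

/-- the vector field in the Bochner formula -/
noncomputable def bochX (u : Fin 6 → Fin 6 → Fin 6 → A) (i : Fin 6) : A :=
  (1/2 : ℝ) • ∑ j, ∑ k, ∑ l, (u i k l * nab3 F u j j k l - u j k l * nab3 F u j i k l)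

end FPF
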