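import Pool.Agent.Helper427.FPF.Defs



namespace FPF



theorem Rm_anti {A : Type*} [CommRing A] [Algebra ℝ A] (F : FrameData A) :
    (∀ a b c d, Rm F a b c d = - Rm F b a c d) ∧ (∀ a b c d, Rm F a b c d = - Rm F a b d c) := by
  constructor
  · intro a b c d
    unfold Rm
    have h1 : ∑ f, (F.Γ b c f * F.Γ a f d - F.Γ a c f * F.Γ b f d) =
        -∑ f, (F.Γ a c f * F.Γ b f d - F.Γ b c f * F.Γ a f d) := by
      rw [← Finset.sum_neg_distrib]
      exact Finset.sum_congr rfl fun f _ => by ring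
    have h2 : ∑ f, (F.Γ a b f - F.Γ b a f) * F.Γ f c d =
        -∑ f, (F.Γ b a f - F.Γ a b f) * F.Γ f c d := by
      rw [← Finset.sum_neg_distrib]
      exact Finset.sum_congr rfl fun f _ => by ring
    rw [h1, h2]
    ring
  · intro a b c d
    unfold Rm
    have h1 : ∑ f, (F.Γ b c f * F.Γ a f d - F.Γ a c f * F.Γ b f d) =
        -∑ f, (F.Γ b d f * F.Γ a f c - F.Γ a d f * F.Γ b f c) := by
      rw [← Finset.sum_neg_distrib]
      refine Finset.sum_congr rfl fun f _ => ?_
      rw [F.anti b d f, F.anti a f c, F.anti a d f, F.anti b f c]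
      ring
    have h2 : ∑ f, (F.Γ a b f - F.Γ b a f) * F.Γ f c d =
        -∑ f, (F.Γ a b f - F.Γ b a f) * F.Γ f d c := by
      rw [← Finset.sum_neg_distrib]
      refine Finset.sum_congr rfl fun f _ => ?_
      rw [F.anti f d c]
      ring
    rw [h1, h2, F.anti b d c, F.anti a d c, map_neg, map_neg]
    ring

end FPF
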