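import Pool.Agent.Helper427.FPF.Defs



namespace FPF



theorem Rm_bianchi {A : Type*} [CommRing A] [Algebra ℝ A] (F : FrameData A) (a b c d : Fin 6) :
    Rm F a b c d + Rm F b c a d + Rm F c a b d = 0 := by
  set C : Fin 6 → Fin 6 → Fin 6 → A := fun a b c => F.Γ a b c - F.Γ b a c with hC
  have tors : ∀ a b (f : A), F.e a (F.e b f) - F.e b (F.e a f) = ∑ c, C a b c * F.e c f := F.tors
  have key : ∀ a b c (f : A), F.e a (F.e b (F.e c f)) - F.e b (F.e a (F.e c f))
      - F.e c (F.e a (F.e b f)) + F.e c (F.e b (F.e a f))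
      = ∑ h, (∑ g, C a b g * C g c h - F.e c (C a b h)) * F.e h f := by
    intro a b c f
    have h1 := tors a b (F.e c f)
    have h2 : F.e c (F.e a (F.e b f)) - F.e c (F.e b (F.e a f))
        = ∑ g, (C a b g * F.e c (F.e g f) + F.e g f * F.e c (C a b g)) := by
      rw [← map_sub, tors a b f, map_sum]
      apply Finset.sum_congr rfl
      intro g _
      rw [Derivation.leibniz]
      simp only [smul_eq_mul]
    have h3 : ∀ g, C a b g * F.e g (F.e c f) - C a b g * F.e c (F.e g f)
        = ∑ h, C a b g * C g c h * F.e h f := by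
      intro g
      rw [← mul_sub, tors g c f, Finset.mul_sum]
      apply Finset.sum_congr rfl
      intro h _
      ring
    have h4 : F.e a (F.e b (F.e c f)) - F.e b (F.e a (F.e c f))
      - F.e c (F.e a (F.e b f)) + F.e c (F.e b (F.e a f))
      = ∑ g, C a b g * F.e g (F.e c f) - ∑ g, (C a b g * F.e c (F.e g f) + F.e g f * F.e c (C a b g)) := by
      rw [← h1, ← h2]; ring
    rw [h4, ← Finset.sum_sub_distrib]
    have h5 : ∀ g, C a b g * F.e g (F.e c f) - (C a b g * F.e c (F.e g f) + F.e g f * F.e c (C a b g))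
        = ∑ h, C a b g * C g c h * F.e h f - F.e c (C a b g) * F.e g f := by
      intro g
      rw [← h3 g]; ring
    rw [Finset.sum_congr rfl (fun g _ => h5 g), Finset.sum_sub_distrib, Finset.sum_comm,
      ← Finset.sum_sub_distrib]
    apply Finset.sum_congr rfl
    intro h _
    rw [sub_mul, Finset.sum_mul]
  have hk := F.ind (fun h => (∑ g, C a b g * C g c h - F.e c (C a b h))
      + (∑ g, C b c g * C g a h - F.e a (C b c h))
      + (∑ g, C c a g * C g b h - F.e b (C c a h))) (by
    intro f
    have e1 := key a b c f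
    have e2 := key b c a f
    have e3 := key c a b f
    simp only [add_mul, Finset.sum_add_distrib]
    rw [← e1, ← e2, ← e3]
    ring)
  have hd := congrFun hk d
  simp only [Pi.zero_apply] at hd
  have hfin : Rm F a b c d + Rm F b c a d + Rm F c a b d
      = -((∑ g, C a b g * C g c d - F.e c (C a b d))
      + (∑ g, C b c g * C g a d - F.e a (C b c d))
      + (∑ g, C c a g * C g b d - F.e b (C c a d))) := by
    have es : (∑ f, (F.Γ b c f * F.Γ a f d - F.Γ a c f * F.Γ b f d)
        - ∑ f, (F.Γ a b f - F.Γ b a f) * F.Γ f c d)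
        + (∑ f, (F.Γ c a f * F.Γ b f d - F.Γ b a f * F.Γ c f d)
        - ∑ f, (F.Γ b c f - F.Γ c b f) * F.Γ f a d)
        + (∑ f, (F.Γ a b f * F.Γ c f d - F.Γ c b f * F.Γ a f d)
        - ∑ f, (F.Γ c a f - F.Γ a c f) * F.Γ f b d)
        = - (∑ g, C a b g * C g c d + ∑ g, C b c g * C g a d + ∑ g, C c a g * C g b d) := by
      simp only [← Finset.sum_sub_distrib, ← Finset.sum_add_distrib, ← Finset.sum_neg_distrib]
      apply Finset.sum_congr rfl
      intro f _
      simp only [hC]
      ring
    have ec : F.e c (C a b d) = F.e c (F.Γ a b d) - F.e c (F.Γ b a d) := by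
      simp only [hC, map_sub]
    have ea : F.e a (C b c d) = F.e a (F.Γ b c d) - F.e a (F.Γ c b d) := by
      simp only [hC, map_sub]
    have eb : F.e b (C c a d) = F.e b (F.Γ c a d) - F.e b (F.Γ a c d) := by
      simp only [hC, map_sub]
    unfold Rm
    rw [ec, ea, eb]
    linear_combination es
  rw [hfin, hd, neg_zero]

end FPF
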