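import Pool.Agent.Helper427.FPF.Defs



namespace FPF



theorem antisum {A : Type*} [CommRing A] [Algebra ℝ A] (F : FrameData A) (i : Fin 6)
    (S : Fin 6 → Fin 6 → A) (hS : ∀ k g, S k g = S g k) :
    ∑ k, ∑ g, F.Γ i k g * S k g = 0 := by
  have h : ∑ k, ∑ g, F.Γ i k g * S k g = - ∑ k, ∑ g, F.Γ i k g * S k g := by
    conv_lhs => rw [Finset.sum_comm]
    rw [← Finset.sum_neg_distrib]
    refine Finset.sum_congr rfl fun k _ => ?_
    rw [← Finset.sum_neg_distrib]
    refine Finset.sum_congr rfl fun g _ => ?_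
    rw [F.anti i g k, hS g k]; ring
  have h2 : (2 : ℝ) • (∑ k, ∑ g, F.Γ i k g * S k g) = 0 := by
    rw [two_smul]
    nth_rewrite 2 [h]
    exact add_neg_cancel _
  have h3 := congrArg (fun z => (1/2 : ℝ) • z) h2
  simpa [smul_smul] using h3

/-- pointwise expansion of the product rule -/
theorem div_point {A : Type*} [CommRing A] [Algebra ℝ A] (F : FrameData A)
    (u : Fin 6 → Fin 6 → Fin 6 → A) (w4 : Fin 6 → Fin 6 → Fin 6 → Fin 6 → A) (i j k l : Fin 6) :
    nab3 F u i i k l * w4 j j k l + u i k l * nab4 F w4 i j j k l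
        - nab3 F u i j k l * w4 j i k l - u j k l * nab4 F w4 i j i k l
      = (F.e i (u i k l * w4 j j k l) - F.e i (u j k l * w4 j i k l))
        - ∑ g, F.Γ i i g * (u g k l * w4 j j k l - u j k l * w4 j g k l)
        - ∑ g, F.Γ i k g * (u i g l * w4 j j k l + u i k l * w4 j j g l)
        - ∑ g, F.Γ i l g * (u i k g * w4 j j k l + u i k l * w4 j j k g)
        - ∑ g, F.Γ i j g * (u i k l * (w4 g j k l + w4 j g k l))
        + ∑ g, F.Γ i j g * (u g k l * w4 j i k l + u j k l * w4 g i k l)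
        + ∑ g, F.Γ i k g * (u j g l * w4 j i k l + u j k l * w4 j i g l)
        + ∑ g, F.Γ i l g * (u j k g * w4 j i k l + u j k l * w4 j i k g) := by
  simp only [nab3, nab4, Derivation.leibniz, smul_eq_mul, mul_add, mul_sub, sub_mul,
    Finset.sum_add_distrib, Finset.sum_sub_distrib, Finset.mul_sum, Finset.sum_mul]
  ring_nf

/-- product rule for the divergence of the Bochner vector field -/
theorem div_bochX {A : Type*} [CommRing A] [Algebra ℝ A] (F : FrameData A)
    (u : Fin 6 → Fin 6 → Fin 6 → A) :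
    dv F (bochX F u) = (1/2 : ℝ) • ∑ i, ∑ j, ∑ k, ∑ l,
      (nab3 F u i i k l * nab3 F u j j k l + u i k l * nab4 F (nab3 F u) i j j k l
        - nab3 F u i j k l * nab3 F u j i k l - u j k l * nab4 F (nab3 F u) i j i k l) := by
  set w4 := nab3 F u with hw
  have key : ∀ i, ∑ j, ∑ k, ∑ l,
      (nab3 F u i i k l * w4 j j k l + u i k l * nab4 F w4 i j j k l
        - nab3 F u i j k l * w4 j i k l - u j k l * nab4 F w4 i j i k l)
      = F.e i (∑ j, ∑ k, ∑ l, (u i k l * w4 j j k l - u j k l * w4 j i k l))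
        - ∑ g, F.Γ i i g * ∑ j, ∑ k, ∑ l, (u g k l * w4 j j k l - u j k l * w4 j g k l) := by
    intro i
    have e1 : ∑ j, ∑ k, ∑ l, ∑ g, F.Γ i i g * (u g k l * w4 j j k l - u j k l * w4 j g k l)
        = ∑ g, F.Γ i i g * ∑ j, ∑ k, ∑ l, (u g k l * w4 j j k l - u j k l * w4 j g k l) := by
      simp only [Finset.mul_sum]
      calc _ = ∑ j, ∑ k, ∑ g, ∑ l, F.Γ i i g * (u g k l * w4 j j k l - u j k l * w4 j g k l) :=
            Finset.sum_congr rfl fun j _ => Finset.sum_congr rfl fun k _ => Finset.sum_comm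
        _ = ∑ j, ∑ g, ∑ k, ∑ l, F.Γ i i g * (u g k l * w4 j j k l - u j k l * w4 j g k l) :=
            Finset.sum_congr rfl fun j _ => Finset.sum_comm
        _ = _ := Finset.sum_comm
    have z1 : ∀ (f : Fin 6 → Fin 6 → Fin 6 → Fin 6 → A), (∀ j k l g, f j k l g = f j g l k) →
        ∑ j, ∑ k, ∑ l, ∑ g, F.Γ i k g * f j k l g = 0 := by
      intro f hf
      refine Finset.sum_eq_zero fun j _ => ?_
      calc _ = ∑ l, ∑ k, ∑ g, F.Γ i k g * f j k l g := Finset.sum_comm
        _ = 0 := Finset.sum_eq_zero fun l _ => antisum F i (fun k g => f j k l g) fun k g => hf j k l g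
    have z2 : ∀ (f : Fin 6 → Fin 6 → Fin 6 → Fin 6 → A), (∀ j k l g, f j k l g = f j k g l) →
        ∑ j, ∑ k, ∑ l, ∑ g, F.Γ i l g * f j k l g = 0 := by
      intro f hf
      refine Finset.sum_eq_zero fun j _ => Finset.sum_eq_zero fun k _ => ?_
      exact antisum F i (fun l g => f j k l g) fun l g => hf j k l g
    have z3 : ∀ (f : Fin 6 → Fin 6 → Fin 6 → Fin 6 → A), (∀ j k l g, f j k l g = f g k l j) →
        ∑ j, ∑ k, ∑ l, ∑ g, F.Γ i j g * f j k l g = 0 := by
      intro f hf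
      calc _ = ∑ j, ∑ k, ∑ g, ∑ l, F.Γ i j g * f j k l g :=
            Finset.sum_congr rfl fun j _ => Finset.sum_congr rfl fun k _ => Finset.sum_comm
        _ = ∑ j, ∑ g, ∑ k, ∑ l, F.Γ i j g * f j k l g :=
            Finset.sum_congr rfl fun j _ => Finset.sum_comm
        _ = ∑ j, ∑ g, F.Γ i j g * ∑ k, ∑ l, f j k l g := by
            simp only [Finset.mul_sum]
        _ = 0 := antisum F i (fun j g => ∑ k, ∑ l, f j k l g) fun j g =>
            Finset.sum_congr rfl fun k _ => Finset.sum_congr rfl fun l _ => hf j k l g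
    have hsum : ∑ j, ∑ k, ∑ l,
      (nab3 F u i i k l * w4 j j k l + u i k l * nab4 F w4 i j j k l
        - nab3 F u i j k l * w4 j i k l - u j k l * nab4 F w4 i j i k l)
      = ∑ j, ∑ k, ∑ l, (F.e i (u i k l * w4 j j k l) - F.e i (u j k l * w4 j i k l))
        - ∑ j, ∑ k, ∑ l, ∑ g, F.Γ i i g * (u g k l * w4 j j k l - u j k l * w4 j g k l)
        - ∑ j, ∑ k, ∑ l, ∑ g, F.Γ i k g * (u i g l * w4 j j k l + u i k l * w4 j j g l)
        - ∑ j, ∑ k, ∑ l, ∑ g, F.Γ i l g * (u i k g * w4 j j k l + u i k l * w4 j j k g)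
        - ∑ j, ∑ k, ∑ l, ∑ g, F.Γ i j g * (u i k l * (w4 g j k l + w4 j g k l))
        + ∑ j, ∑ k, ∑ l, ∑ g, F.Γ i j g * (u g k l * w4 j i k l + u j k l * w4 g i k l)
        + ∑ j, ∑ k, ∑ l, ∑ g, F.Γ i k g * (u j g l * w4 j i k l + u j k l * w4 j i g l)
        + ∑ j, ∑ k, ∑ l, ∑ g, F.Γ i l g * (u j k g * w4 j i k l + u j k l * w4 j i k g) := by
      simp only [div_point F u w4 i, Finset.sum_add_distrib,
        Finset.sum_sub_distrib]
    rw [hsum, z1 (fun j k l g => u i g l * w4 j j k l + u i k l * w4 j j g l) (by intros; ring),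
      z2 (fun j k l g => u i k g * w4 j j k l + u i k l * w4 j j k g) (by intros; ring),
      z3 (fun j k l g => u i k l * (w4 g j k l + w4 j g k l)) (by intros; ring),
      z3 (fun j k l g => u g k l * w4 j i k l + u j k l * w4 g i k l) (by intros; ring),
      z1 (fun j k l g => u j g l * w4 j i k l + u j k l * w4 j i g l) (by intros; ring),
      z2 (fun j k l g => u j k g * w4 j i k l + u j k l * w4 j i k g) (by intros; ring), e1]
    simp only [map_sum, map_sub]
    ring
  rw [dv]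
  simp only [nab1, bochX]
  rw [Finset.smul_sum]
  refine Finset.sum_congr rfl fun i _ => ?_
  rw [key i, smul_sub]
  congr 1
  · exact Derivation.map_smul (F.e i) _ _
  · rw [Finset.smul_sum (s := Finset.univ) (r := (1/2 : ℝ))
      (f := fun g => F.Γ i i g * ∑ j, ∑ k, ∑ l, (u g k l * w4 j j k l - u j k l * w4 j g k l))]
    refine Finset.sum_congr rfl fun g _ => ?_
    rw [mul_smul_comm]

end FPF
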