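import Pool.Agent.Helper427.FPF.Defs



namespace FPF



lemma slot606 {A : Type*} [CommRing A] [Algebra ℝ A] (F : FrameData A) (a b c : Fin 6)
    (w : Fin 6 → A) :
    -((∑ g, w g * F.e a (F.Γ b c g)) - ∑ g, w g * F.e b (F.Γ a c g)) +
      (∑ g, F.Γ a c g * ∑ h, F.Γ b g h * w h) - (∑ g, F.Γ b c g * ∑ h, F.Γ a g h * w h) +
      ((∑ g, F.Γ a b g * ∑ h, F.Γ g c h * w h) - ∑ g, F.Γ b a g * ∑ h, F.Γ g c h * w h) =
      - ∑ g, Rm F a b c g * w g := by
  have e1 : ∀ (p : Fin 6 → A) (q : Fin 6 → Fin 6 → A),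
      ∑ g, p g * ∑ h, q g h * w h = ∑ g, (∑ h, p h * q h g) * w g := by
    intro p q
    simp only [Finset.mul_sum, Finset.sum_mul]
    rw [Finset.sum_comm]
    refine Finset.sum_congr rfl fun g _ => Finset.sum_congr rfl fun h _ => ?_
    ring
  rw [e1, e1, e1, e1]
  rw [← Finset.sum_sub_distrib, ← Finset.sum_neg_distrib, ← Finset.sum_neg_distrib,
    ← Finset.sum_sub_distrib, ← Finset.sum_add_distrib, ← Finset.sum_sub_distrib,
    ← Finset.sum_add_distrib]
  refine Finset.sum_congr rfl fun g _ => ?_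
  unfold Rm
  simp only [sub_mul, Finset.sum_sub_distrib]
  ring

lemma leib606 {A : Type*} [CommRing A] [Algebra ℝ A] (D : Derivation ℝ A A)
    (p w : Fin 6 → A) : D (∑ g, p g * w g) = (∑ g, p g * D (w g)) + ∑ g, w g * D (p g) := by
  rw [map_sum, ← Finset.sum_add_distrib]
  refine Finset.sum_congr rfl fun g _ => ?_
  rw [Derivation.leibniz, smul_eq_mul, smul_eq_mul]

lemma msub606 {A : Type*} [CommRing A] (x y z w t : Fin 6 → A) :
    ∑ g, x g * (y g - z g - w g - t g) =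
      (∑ g, x g * y g) - (∑ g, x g * z g) - (∑ g, x g * w g) - ∑ g, x g * t g := by
  simp only [mul_sub, Finset.sum_sub_distrib]

lemma swap606 {A : Type*} [CommRing A] (p q : Fin 6 → A) (v : Fin 6 → Fin 6 → A) :
    ∑ g, p g * ∑ h, q h * v g h = ∑ g, q g * ∑ h, p h * v h g := by
  simp only [Finset.mul_sum]
  rw [Finset.sum_comm]
  refine Finset.sum_congr rfl fun g _ => Finset.sum_congr rfl fun h _ => ?_
  ring

lemma expand606 {A : Type*} [CommRing A] [Algebra ℝ A] (F : FrameData A)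
    (u : Fin 6 → Fin 6 → Fin 6 → A) (a b c d f : Fin 6) :
    nab4 F (nab3 F u) a b c d f =
      F.e a (F.e b (u c d f))
      - ((∑ g, F.Γ b c g * F.e a (u g d f)) + ∑ g, F.Γ a c g * F.e b (u g d f))
      - ((∑ g, F.Γ b d g * F.e a (u c g f)) + ∑ g, F.Γ a d g * F.e b (u c g f))
      - ((∑ g, F.Γ b f g * F.e a (u c d g)) + ∑ g, F.Γ a f g * F.e b (u c d g))
      - (∑ g, u g d f * F.e a (F.Γ b c g)) - (∑ g, u c g f * F.e a (F.Γ b d g))
      - (∑ g, u c d g * F.e a (F.Γ b f g))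
      - (∑ g, F.Γ a b g * F.e g (u c d f))
      + (∑ g, F.Γ a b g * ∑ h, F.Γ g c h * u h d f)
      + (∑ g, F.Γ a b g * ∑ h, F.Γ g d h * u c h f)
      + (∑ g, F.Γ a b g * ∑ h, F.Γ g f h * u c d h)
      + (∑ g, F.Γ a c g * ∑ h, F.Γ b g h * u h d f)
      + (∑ g, F.Γ a d g * ∑ h, F.Γ b g h * u c h f)
      + (∑ g, F.Γ a f g * ∑ h, F.Γ b g h * u c d h)
      + ((∑ g, F.Γ a c g * ∑ h, F.Γ b d h * u g h f) + ∑ g, F.Γ b c g * ∑ h, F.Γ a d h * u g h f)
      + ((∑ g, F.Γ a c g * ∑ h, F.Γ b f h * u g d h) + ∑ g, F.Γ b c g * ∑ h, F.Γ a f h * u g d h)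
      + ((∑ g, F.Γ a d g * ∑ h, F.Γ b f h * u c g h) + ∑ g, F.Γ b d g * ∑ h, F.Γ a f h * u c g h)
      := by
  unfold nab4 nab3
  rw [map_sub, map_sub, map_sub, leib606, leib606, leib606, msub606, msub606, msub606, msub606]
  rw [swap606 (fun g => F.Γ b c g) (fun h => F.Γ a d h) (fun g h => u g h f),
    swap606 (fun g => F.Γ b c g) (fun h => F.Γ a f h) (fun g h => u g d h),
    swap606 (fun g => F.Γ b d g) (fun h => F.Γ a f h) (fun g h => u c g h)]
  ring

/-- Ricci identity for 3-tensors -/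
theorem ricci3 {A : Type*} [CommRing A] [Algebra ℝ A] (F : FrameData A)
    (u : Fin 6 → Fin 6 → Fin 6 → A) (a b c d f : Fin 6) :
    nab4 F (nab3 F u) a b c d f - nab4 F (nab3 F u) b a c d f =
      - ∑ g, (Rm F a b c g * u g d f + Rm F a b d g * u c g f + Rm F a b f g * u c d g) := by
  have h1 := slot606 F a b c (fun g => u g d f)
  have h2 := slot606 F a b d (fun g => u c g f)
  have h3 := slot606 F a b f (fun g => u c d g)
  have h4 := F.tors a b (u c d f)
  simp only [sub_mul, Finset.sum_sub_distrib] at h4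
  rw [expand606 F u a b c d f, expand606 F u b a c d f, Finset.sum_add_distrib,
    Finset.sum_add_distrib]
  linear_combination h1 + h2 + h3 + h4

end FPF
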