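import Pool.Agent.Helper427.FPF.Defs



namespace FPF



theorem nab3_alt {A : Type*} [CommRing A] [Algebra ℝ A] (F : FrameData A)
    (u : Fin 6 → Fin 6 → Fin 6 → A) (hu : Alt3 u) (a : Fin 6) : Alt3 (nab3 F u a) := by
  obtain ⟨h1, h2⟩ := hu
  refine ⟨fun b c d => ?_, fun b c d => ?_⟩
  · unfold nab3
    have e0 : F.e a (u b c d) = - F.e a (u c b d) := by rw [h1 b c d, map_neg]
    have e1 : ∑ g, F.Γ a b g * u g c d = - ∑ g, F.Γ a b g * u c g d := by
      rw [← Finset.sum_neg_distrib]
      exact Finset.sum_congr rfl fun g _ => by rw [h1 g c d]; ring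
    have e2 : ∑ g, F.Γ a c g * u b g d = - ∑ g, F.Γ a c g * u g b d := by
      rw [← Finset.sum_neg_distrib]
      exact Finset.sum_congr rfl fun g _ => by rw [h1 b g d]; ring
    have e3 : ∑ g, F.Γ a d g * u b c g = - ∑ g, F.Γ a d g * u c b g := by
      rw [← Finset.sum_neg_distrib]
      exact Finset.sum_congr rfl fun g _ => by rw [h1 b c g]; ring
    rw [e0, e1, e2, e3]
    ring
  · unfold nab3
    have e0 : F.e a (u b c d) = - F.e a (u b d c) := by rw [h2 b c d, map_neg]
    have e1 : ∑ g, F.Γ a b g * u g c d = - ∑ g, F.Γ a b g * u g d c := by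
      rw [← Finset.sum_neg_distrib]
      exact Finset.sum_congr rfl fun g _ => by rw [h2 g c d]; ring
    have e2 : ∑ g, F.Γ a c g * u b g d = - ∑ g, F.Γ a c g * u b d g := by
      rw [← Finset.sum_neg_distrib]
      exact Finset.sum_congr rfl fun g _ => by rw [h2 b g d]; ring
    have e3 : ∑ g, F.Γ a d g * u b c g = - ∑ g, F.Γ a d g * u b g c := by
      rw [← Finset.sum_neg_distrib]
      exact Finset.sum_congr rfl fun g _ => by rw [h2 b c g]; ring
    rw [e0, e1, e2, e3]
    ring

end FPF
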