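import Pool.Agent.Helper427.FPF.Defs
import Pool.Agent.Helper427.FPF.P_nab3_alt



namespace FPF



theorem sqd3_p12 {A : Type*} [CommRing A] (h : Fin 6 → Fin 6 → Fin 6 → Fin 6 → A) :
    ∑ a, ∑ b, ∑ c, ∑ d, h a b c d = ∑ a, ∑ b, ∑ c, ∑ d, h b a c d := Finset.sum_comm

theorem sqd3_p23 {A : Type*} [CommRing A] (h : Fin 6 → Fin 6 → Fin 6 → Fin 6 → A) :
    ∑ a, ∑ b, ∑ c, ∑ d, h a b c d = ∑ a, ∑ b, ∑ c, ∑ d, h a c b d :=
  Finset.sum_congr rfl fun _ _ => Finset.sum_comm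

theorem sqd3_p34 {A : Type*} [CommRing A] (h : Fin 6 → Fin 6 → Fin 6 → Fin 6 → A) :
    ∑ a, ∑ b, ∑ c, ∑ d, h a b c d = ∑ a, ∑ b, ∑ c, ∑ d, h a b d c :=
  Finset.sum_congr rfl fun _ _ => Finset.sum_congr rfl fun _ _ => Finset.sum_comm

theorem sqd3_aux {A : Type*} [CommRing A] (v : Fin 6 → Fin 6 → Fin 6 → Fin 6 → A)
    (h1 : ∀ x a b c, v x a b c = - v x b a c) (h2 : ∀ x a b c, v x a b c = - v x a c b) :
    ∑ a, ∑ b, ∑ c, ∑ d, (v a b c d - v b a c d + v c a b d - v d a b c) ^ 2 =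
      4 * (∑ a, ∑ b, ∑ c, ∑ d, v a b c d ^ 2)
        - 12 * ∑ a, ∑ b, ∑ c, ∑ d, v a b c d * v b a c d := by
  have hpt : ∀ a b c d, (v a b c d - v b a c d + v c a b d - v d a b c) ^ 2 =
      v a b c d ^ 2 + v b a c d ^ 2 + v c a b d ^ 2 + v d a b c ^ 2
        - 2 * (v a b c d * v b a c d) - 2 * (v a c b d * v c a b d)
        - 2 * (v a d b c * v d a b c) - 2 * (v b c a d * v c b a d)
        - 2 * (v b d a c * v d b a c) - 2 * (v c d a b * v d c a b) := by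
    intro a b c d
    have e1 : v a c b d = - v a b c d := h1 a c b d
    have e2 : v a d b c = v a b c d := by rw [h1 a d b c, h2 a b d c, neg_neg]
    have e3 : v b c a d = - v b a c d := h1 b c a d
    have e4 : v c b a d = - v c a b d := h1 c b a d
    have e5 : v b d a c = v b a c d := by rw [h1 b d a c, h2 b a d c, neg_neg]
    have e6 : v d b a c = - v d a b c := h1 d b a c
    have e7 : v c d a b = v c a b d := by rw [h1 c d a b, h2 c a d b, neg_neg]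
    have e8 : v d c a b = v d a b c := by rw [h1 d c a b, h2 d a c b, neg_neg]
    rw [e1, e2, e3, e4, e5, e6, e7, e8]
    ring
  have hq1 : ∑ a, ∑ b, ∑ c, ∑ d, v b a c d ^ 2 = ∑ a, ∑ b, ∑ c, ∑ d, v a b c d ^ 2 :=
    sqd3_p12 (fun a b c d => v b a c d ^ 2)
  have hq2 : ∑ a, ∑ b, ∑ c, ∑ d, v c a b d ^ 2 = ∑ a, ∑ b, ∑ c, ∑ d, v a b c d ^ 2 := by
    rw [sqd3_p23 (fun a b c d => v c a b d ^ 2)]
    exact hq1
  have hq3 : ∑ a, ∑ b, ∑ c, ∑ d, v d a b c ^ 2 = ∑ a, ∑ b, ∑ c, ∑ d, v a b c d ^ 2 := by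
    rw [sqd3_p34 (fun a b c d => v d a b c ^ 2)]
    exact hq2
  have g1 : ∑ a, ∑ b, ∑ c, ∑ d, v a c b d * v c a b d =
      ∑ a, ∑ b, ∑ c, ∑ d, v a b c d * v b a c d :=
    sqd3_p23 (fun a b c d => v a c b d * v c a b d)
  have g2 : ∑ a, ∑ b, ∑ c, ∑ d, v a d b c * v d a b c =
      ∑ a, ∑ b, ∑ c, ∑ d, v a b c d * v b a c d := by
    rw [sqd3_p34 (fun a b c d => v a d b c * v d a b c)]
    exact g1
  have g3 : ∑ a, ∑ b, ∑ c, ∑ d, v b c a d * v c b a d =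
      ∑ a, ∑ b, ∑ c, ∑ d, v a b c d * v b a c d := by
    rw [sqd3_p12 (fun a b c d => v b c a d * v c b a d)]
    exact g1
  have g4 : ∑ a, ∑ b, ∑ c, ∑ d, v b d a c * v d b a c =
      ∑ a, ∑ b, ∑ c, ∑ d, v a b c d * v b a c d := by
    rw [sqd3_p12 (fun a b c d => v b d a c * v d b a c)]
    exact g2
  have g5 : ∑ a, ∑ b, ∑ c, ∑ d, v c d a b * v d c a b =
      ∑ a, ∑ b, ∑ c, ∑ d, v a b c d * v b a c d := by
    rw [sqd3_p23 (fun a b c d => v c d a b * v d c a b)]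
    exact g4
  simp only [hpt, Finset.sum_add_distrib, Finset.sum_sub_distrib, ← Finset.mul_sum]
  rw [hq1, hq2, hq3, g1, g2, g3, g4, g5]
  ring

theorem sq_d3 {A : Type*} [CommRing A] [Algebra ℝ A] (F : FrameData A)
    (u : Fin 6 → Fin 6 → Fin 6 → A) (hu : Alt3 u) :
    ∑ a, ∑ b, ∑ c, ∑ d, d3 F u a b c d ^ 2 =
      4 * (∑ a, ∑ b, ∑ c, ∑ d, nab3 F u a b c d ^ 2)
        - 12 * ∑ a, ∑ b, ∑ c, ∑ d, nab3 F u a b c d * nab3 F u b a c d := by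
  have h := fun a => nab3_alt F u hu a
  exact sqd3_aux (nab3 F u) (fun x a b c => (h x).1 a b c) (fun x a b c => (h x).2 a b c)

end FPF
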