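import Pool.Agent.Helper427.FPF.Defs
import Pool.Agent.Helper427.FPF.P_Rm_anti
import Pool.Agent.Helper427.FPF.P_ricci3
import Pool.Agent.Helper427.FPF.P_sq_d3
import Pool.Agent.Helper427.FPF.P_div_bochX



namespace FPF



/-- Bochner formula for 3-forms -/
theorem bochner {A : Type*} [CommRing A] [Algebra ℝ A] (F : FrameData A)
    (u : Fin 6 → Fin 6 → Fin 6 → A) (hu : Alt3 u) :
    (1/24 : ℝ) • (∑ a, ∑ b, ∑ c, ∑ d, d3 F u a b c d ^ 2)
      + (1/2 : ℝ) • (∑ b, ∑ c, del3 F u b c ^ 2)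
    = (1/6 : ℝ) • (∑ a, ∑ b, ∑ c, ∑ d, nab3 F u a b c d ^ 2)
      + Tform (fun a b c d => Rm F a b d c) u + dv F (bochX F u) := by
  rw [sq_d3 F u hu, div_bochX]
  have hric := ricci3 F u
  have hRm := (Rm_anti F).2
  have hS3 : ∑ b, ∑ c, del3 F u b c ^ 2 =
      ∑ i, ∑ j, ∑ k, ∑ l, nab3 F u i i k l * nab3 F u j j k l := by
    unfold del3
    generalize nab3 F u = v
    have e1 : ∀ b c, (∑ a, v a a b c) ^ 2 = ∑ i, ∑ j, v i i b c * v j j b c := by
      intro b c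
      rw [pow_two, Finset.sum_mul_sum]
    simp only [e1]
    calc ∑ b, ∑ c, ∑ i, ∑ j, v i i b c * v j j b c
        = ∑ b, ∑ i, ∑ c, ∑ j, v i i b c * v j j b c := by
          apply Finset.sum_congr rfl; intro b _; rw [Finset.sum_comm]
      _ = ∑ i, ∑ b, ∑ c, ∑ j, v i i b c * v j j b c := by rw [Finset.sum_comm]
      _ = ∑ i, ∑ b, ∑ j, ∑ c, v i i b c * v j j b c := by
          apply Finset.sum_congr rfl; intro i _
          apply Finset.sum_congr rfl; intro b _; rw [Finset.sum_comm]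
      _ = ∑ i, ∑ j, ∑ b, ∑ c, v i i b c * v j j b c := by
          apply Finset.sum_congr rfl; intro i _; rw [Finset.sum_comm]
  have hT1 : ∑ i, ∑ j, ∑ f, (fun a b c d => Rm F a b d c) i j i f *
        ∑ k, ∑ l, u f k l * u j k l =
      ∑ i, ∑ j, ∑ k, ∑ l, ∑ g, (-(Rm F i j i g)) * (u g k l * u j k l) := by
    apply Finset.sum_congr rfl; intro i _
    apply Finset.sum_congr rfl; intro j _
    simp only [Finset.mul_sum]
    rw [Finset.sum_comm]
    apply Finset.sum_congr rfl; intro k _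
    rw [Finset.sum_comm]
    apply Finset.sum_congr rfl; intro l _
    apply Finset.sum_congr rfl; intro g _
    rw [hRm i j g i]
  have hT2 : ∑ i, ∑ j, ∑ k, ∑ f, (fun a b c d => Rm F a b d c) i j k f *
        ∑ l, u i f l * u j k l =
      ∑ i, ∑ j, ∑ k, ∑ l, ∑ g, (-(Rm F i j k g)) * (u i g l * u j k l) := by
    apply Finset.sum_congr rfl; intro i _
    apply Finset.sum_congr rfl; intro j _
    apply Finset.sum_congr rfl; intro k _
    simp only [Finset.mul_sum]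
    rw [Finset.sum_comm]
    apply Finset.sum_congr rfl; intro l _
    apply Finset.sum_congr rfl; intro g _
    rw [hRm i j g k]
  have hQ3 : ∑ i, ∑ j, ∑ k, ∑ l, ∑ g, (-(Rm F i j l g)) * (u i k g * u j k l) =
      ∑ i, ∑ j, ∑ k, ∑ l, ∑ g, (-(Rm F i j k g)) * (u i g l * u j k l) := by
    apply Finset.sum_congr rfl; intro i _
    apply Finset.sum_congr rfl; intro j _
    rw [Finset.sum_comm]
    apply Finset.sum_congr rfl; intro k _
    apply Finset.sum_congr rfl; intro l _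
    apply Finset.sum_congr rfl; intro g _
    rw [hu.2 i l g, hu.2 j l k]
    ring
  have hP : ∑ i, ∑ j, ∑ k, ∑ l, u j k l * nab4 F (nab3 F u) i j i k l -
      ∑ i, ∑ j, ∑ k, ∑ l, u i k l * nab4 F (nab3 F u) i j j k l =
      (∑ i, ∑ j, ∑ k, ∑ l, ∑ g, (-(Rm F i j i g)) * (u g k l * u j k l)) +
      2 * (∑ i, ∑ j, ∑ k, ∑ l, ∑ g, (-(Rm F i j k g)) * (u i g l * u j k l)) := by
    have e1 : ∑ i, ∑ j, ∑ k, ∑ l, u i k l * nab4 F (nab3 F u) i j j k l =
        ∑ i, ∑ j, ∑ k, ∑ l, u j k l * nab4 F (nab3 F u) j i i k l := by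
      rw [Finset.sum_comm]
    rw [e1, two_mul]
    nth_rewrite 2 [← hQ3]
    simp only [← Finset.sum_sub_distrib, ← Finset.sum_add_distrib]
    apply Finset.sum_congr rfl; intro i _
    apply Finset.sum_congr rfl; intro j _
    apply Finset.sum_congr rfl; intro k _
    apply Finset.sum_congr rfl; intro l _
    rw [← mul_sub, hric i j i k l, mul_neg, Finset.mul_sum, ← Finset.sum_neg_distrib]
    apply Finset.sum_congr rfl; intro g _
    ring
  have hdv : ∑ i, ∑ j, ∑ k, ∑ l,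
      (nab3 F u i i k l * nab3 F u j j k l + u i k l * nab4 F (nab3 F u) i j j k l
        - nab3 F u i j k l * nab3 F u j i k l - u j k l * nab4 F (nab3 F u) i j i k l) =
      ∑ i, ∑ j, ∑ k, ∑ l, nab3 F u i i k l * nab3 F u j j k l +
      ∑ i, ∑ j, ∑ k, ∑ l, u i k l * nab4 F (nab3 F u) i j j k l -
      ∑ i, ∑ j, ∑ k, ∑ l, nab3 F u i j k l * nab3 F u j i k l -
      ∑ i, ∑ j, ∑ k, ∑ l, u j k l * nab4 F (nab3 F u) i j i k l := by
    simp only [Finset.sum_sub_distrib, Finset.sum_add_distrib]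
  rw [hS3, hdv]
  unfold Tform
  rw [hT1, hT2]
  generalize (∑ i, ∑ j, ∑ k, ∑ l, u j k l * nab4 F (nab3 F u) i j i k l) = P2 at *
  generalize (∑ i, ∑ j, ∑ k, ∑ l, u i k l * nab4 F (nab3 F u) i j j k l) = P1 at *
  generalize (∑ i, ∑ j, ∑ k, ∑ l, ∑ g, (-(Rm F i j i g)) * (u g k l * u j k l)) = T1 at *
  generalize (∑ i, ∑ j, ∑ k, ∑ l, ∑ g, (-(Rm F i j k g)) * (u i g l * u j k l)) = T2 at *
  generalize (∑ i, ∑ j, ∑ k, ∑ l, nab3 F u i i k l * nab3 F u j j k l) = S3 at *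
  generalize (∑ i, ∑ j, ∑ k, ∑ l, nab3 F u i j k l * nab3 F u j i k l) = S2 at *
  generalize (∑ a, ∑ b, ∑ c, ∑ d, nab3 F u a b c d ^ 2) = S1 at *
  simp only [Algebra.smul_def]
  have c6 : algebraMap ℝ A (1/6) = 4 * algebraMap ℝ A (1/24) := by
    rw [show (1/6 : ℝ) = 4 * (1/24) by norm_num, map_mul, map_ofNat]
  have c2 : algebraMap ℝ A (1/2) = 12 * algebraMap ℝ A (1/24) := by
    rw [show (1/2 : ℝ) = 12 * (1/24) by norm_num, map_mul, map_ofNat]
  have c1 : 24 * algebraMap ℝ A (1/24) = 1 := by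
    rw [← map_ofNat (algebraMap ℝ A) 24, ← map_mul]
    norm_num
  rw [c6, c2]
  linear_combination (12 * algebraMap ℝ A (1/24)) * hP + T2 * c1

end FPF
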