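import Pool.Agent.Helper427.FPF.Defs



namespace FPF



theorem d2_alt {A : Type*} [CommRing A] [Algebra ℝ A] (F : FrameData A)
    (β : Fin 6 → Fin 6 → A) (hβ : Alt2 β) : Alt3 (d2 F β) := by
  have key : ∀ a b c, nab2 F β a b c = - nab2 F β a c b := by
    intro a b c
    unfold nab2
    have h1 : F.e a (β b c) = - F.e a (β c b) := by
      rw [hβ b c, map_neg]
    have h2 : ∑ g, F.Γ a b g * β g c = - ∑ g, F.Γ a b g * β c g := by
      rw [← Finset.sum_neg_distrib]
      apply Finset.sum_congr rfl
      intro g _
      rw [hβ g c]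
      ring
    have h3 : ∑ g, F.Γ a c g * β b g = - ∑ g, F.Γ a c g * β g b := by
      rw [← Finset.sum_neg_distrib]
      apply Finset.sum_congr rfl
      intro g _
      rw [hβ b g]
      ring
    rw [h1, h2, h3]
    ring
  constructor
  · intro a b c
    unfold d2
    rw [key b a c, key a c b, key c b a]
    ring
  · intro a b c
    unfold d2
    rw [key a c b, key c b a, key b a c]
    ring

end FPF
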