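import Pool.Agent.Helper427.FPF.Defs



namespace FPF



theorem df_half {A : Type*} [CommRing A] [Algebra ℝ A] {Q : A} (h : Q = -Q) : Q = 0 := by
  have h1 : (2:ℝ) • Q = 0 := by
    rw [two_smul]
    nth_rewrite 1 [h]
    exact neg_add_cancel Q
  have h2 : (1/2:ℝ) • ((2:ℝ) • Q) = Q := by
    rw [smul_smul]; norm_num
  rw [← h2, h1]
  exact smul_zero (1/2 : ℝ)

theorem df_leib {A : Type*} [CommRing A] [Algebra ℝ A] (F : FrameData A)
    (β : Fin 6 → Fin 6 → A) (Y Z : Fin 6 → A) (a : Fin 6) :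
    F.e a (∑ b, ∑ c, β b c * Y b * Z c) =
      (∑ b, ∑ c, nab2 F β a b c * Y b * Z c) + (∑ b, ∑ c, β b c * nab1 F Y a b * Z c)
        + ∑ b, ∑ c, β b c * Y b * nab1 F Z a c := by
  have h1 : F.e a (∑ b, ∑ c, β b c * Y b * Z c) =
      ∑ b, ∑ c, (F.e a (β b c) * Y b * Z c + β b c * F.e a (Y b) * Z c
        + β b c * Y b * F.e a (Z c)) := by
    rw [map_sum]
    refine Finset.sum_congr rfl (fun b _ => ?_)
    rw [map_sum]
    refine Finset.sum_congr rfl (fun c _ => ?_)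
    simp only [Derivation.leibniz, smul_eq_mul]
    ring
  have h2 : ∑ b, ∑ c, ((∑ g, F.Γ a b g * β g c) * Y b * Z c)
      = - ∑ b, ∑ c, β b c * (∑ g, F.Γ a b g * Y g) * Z c := by
    have e1 : ∑ b, ∑ c, ((∑ g, F.Γ a b g * β g c) * Y b * Z c)
        = ∑ b, ∑ g, ∑ c, F.Γ a b g * β g c * Y b * Z c := by
      refine Finset.sum_congr rfl (fun b _ => ?_)
      rw [Finset.sum_comm]
      refine Finset.sum_congr rfl (fun c _ => ?_)
      rw [Finset.sum_mul, Finset.sum_mul]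
    have e2 : ∑ b, ∑ c, β b c * (∑ g, F.Γ a b g * Y g) * Z c
        = ∑ g, ∑ b, ∑ c, β b c * (F.Γ a b g * Y g) * Z c := by
      rw [Finset.sum_comm (γ := Fin 6) (s := Finset.univ) (t := Finset.univ)
        (f := fun g b => ∑ c, β b c * (F.Γ a b g * Y g) * Z c)]
      refine Finset.sum_congr rfl (fun b _ => ?_)
      rw [Finset.sum_comm]
      refine Finset.sum_congr rfl (fun c _ => ?_)
      rw [Finset.mul_sum, Finset.sum_mul]
    rw [e1, e2, ← Finset.sum_neg_distrib]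
    refine Finset.sum_congr rfl (fun b _ => ?_)
    rw [← Finset.sum_neg_distrib]
    refine Finset.sum_congr rfl (fun g _ => ?_)
    rw [← Finset.sum_neg_distrib]
    refine Finset.sum_congr rfl (fun c _ => ?_)
    rw [F.anti a b g]
    ring
  have h3 : ∑ b, ∑ c, ((∑ g, F.Γ a c g * β b g) * Y b * Z c)
      = - ∑ b, ∑ c, β b c * Y b * (∑ g, F.Γ a c g * Z g) := by
    rw [← Finset.sum_neg_distrib]
    refine Finset.sum_congr rfl (fun b _ => ?_)
    have e1 : ∑ c, ((∑ g, F.Γ a c g * β b g) * Y b * Z c)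
        = ∑ c, ∑ g, F.Γ a c g * β b g * Y b * Z c := by
      refine Finset.sum_congr rfl (fun c _ => ?_)
      rw [Finset.sum_mul, Finset.sum_mul]
    have e2 : ∑ c, β b c * Y b * (∑ g, F.Γ a c g * Z g)
        = ∑ g, ∑ c, β b c * Y b * (F.Γ a c g * Z g) := by
      rw [Finset.sum_comm]
      refine Finset.sum_congr rfl (fun c _ => ?_)
      rw [Finset.mul_sum]
    rw [e1, e2, ← Finset.sum_neg_distrib]
    refine Finset.sum_congr rfl (fun c _ => ?_)
    rw [← Finset.sum_neg_distrib]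
    refine Finset.sum_congr rfl (fun g _ => ?_)
    rw [F.anti a c g]
    ring
  have h4 : (∑ b, ∑ c, nab2 F β a b c * Y b * Z c)
      = (∑ b, ∑ c, F.e a (β b c) * Y b * Z c)
        - (∑ b, ∑ c, ((∑ g, F.Γ a b g * β g c) * Y b * Z c))
        - ∑ b, ∑ c, ((∑ g, F.Γ a c g * β b g) * Y b * Z c) := by
    rw [← Finset.sum_sub_distrib, ← Finset.sum_sub_distrib]
    refine Finset.sum_congr rfl (fun b _ => ?_)
    rw [← Finset.sum_sub_distrib, ← Finset.sum_sub_distrib]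
    refine Finset.sum_congr rfl (fun c _ => ?_)
    unfold nab2
    ring
  have h5 : (∑ b, ∑ c, β b c * nab1 F Y a b * Z c)
      = (∑ b, ∑ c, β b c * F.e a (Y b) * Z c)
        - ∑ b, ∑ c, β b c * (∑ g, F.Γ a b g * Y g) * Z c := by
    rw [← Finset.sum_sub_distrib]
    refine Finset.sum_congr rfl (fun b _ => ?_)
    rw [← Finset.sum_sub_distrib]
    refine Finset.sum_congr rfl (fun c _ => ?_)
    unfold nab1
    ring
  have h6 : (∑ b, ∑ c, β b c * Y b * nab1 F Z a c)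
      = (∑ b, ∑ c, β b c * Y b * F.e a (Z c))
        - ∑ b, ∑ c, β b c * Y b * (∑ g, F.Γ a c g * Z g) := by
    rw [← Finset.sum_sub_distrib]
    refine Finset.sum_congr rfl (fun b _ => ?_)
    rw [← Finset.sum_sub_distrib]
    refine Finset.sum_congr rfl (fun c _ => ?_)
    unfold nab1
    ring
  have h7 : ∑ b, ∑ c, (F.e a (β b c) * Y b * Z c + β b c * F.e a (Y b) * Z c
        + β b c * Y b * F.e a (Z c))
      = (∑ b, ∑ c, F.e a (β b c) * Y b * Z c) + (∑ b, ∑ c, β b c * F.e a (Y b) * Z c)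
        + ∑ b, ∑ c, β b c * Y b * F.e a (Z c) := by
    rw [← Finset.sum_add_distrib, ← Finset.sum_add_distrib]
    refine Finset.sum_congr rfl (fun b _ => ?_)
    rw [← Finset.sum_add_distrib, ← Finset.sum_add_distrib]
  rw [h1, h7, h4, h5, h6, h2, h3]
  ring

theorem df_P {A : Type*} [CommRing A] [Algebra ℝ A] (F : FrameData A) (κ : ℝ)
    (Y Z W : Fin 6 → A)
    (h : ∀ c, ∑ a, (Y a * nab1 F Z a c - Z a * nab1 F Y a c) = κ • W c)
    (β : Fin 6 → Fin 6 → A) (hβ : Alt2 β) :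
    (∑ a, Y a * ∑ b, ∑ c, β b c * nab1 F Z a b * W c)
      + ∑ a, Z a * ∑ b, ∑ c, β b c * W b * nab1 F Y a c = 0 := by
  have h1 : ∑ a, Y a * ∑ b, ∑ c, β b c * nab1 F Z a b * W c
      = ∑ b, ∑ c, ∑ a, β b c * W c * (Y a * nab1 F Z a b) := by
    simp only [Finset.mul_sum]
    rw [Finset.sum_comm]
    refine Finset.sum_congr rfl (fun b _ => ?_)
    rw [Finset.sum_comm]
    refine Finset.sum_congr rfl (fun c _ => Finset.sum_congr rfl (fun a _ => ?_))
    ring
  have h2 : ∑ a, Z a * ∑ b, ∑ c, β b c * W b * nab1 F Y a c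
      = - ∑ b, ∑ c, ∑ a, β b c * W c * (Z a * nab1 F Y a b) := by
    simp only [Finset.mul_sum]
    have e1 : ∑ a, ∑ b, ∑ c, Z a * (β b c * W b * nab1 F Y a c)
        = ∑ a, ∑ b, ∑ c, Z a * (β c b * W c * nab1 F Y a b) := by
      refine Finset.sum_congr rfl (fun a _ => ?_)
      rw [Finset.sum_comm]
    rw [e1, Finset.sum_comm, ← Finset.sum_neg_distrib]
    refine Finset.sum_congr rfl (fun b _ => ?_)
    rw [Finset.sum_comm, ← Finset.sum_neg_distrib]
    refine Finset.sum_congr rfl (fun c _ => ?_)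
    rw [← Finset.sum_neg_distrib]
    refine Finset.sum_congr rfl (fun a _ => ?_)
    rw [hβ c b]
    ring
  have h3 : (∑ b, ∑ c, ∑ a, β b c * W c * (Y a * nab1 F Z a b))
      + - ∑ b, ∑ c, ∑ a, β b c * W c * (Z a * nab1 F Y a b)
      = ∑ b, ∑ c, β b c * W c * (κ • W b) := by
    rw [← sub_eq_add_neg, ← Finset.sum_sub_distrib]
    refine Finset.sum_congr rfl (fun b _ => ?_)
    rw [← Finset.sum_sub_distrib]
    refine Finset.sum_congr rfl (fun c _ => ?_)
    rw [← Finset.sum_sub_distrib, ← h b, Finset.mul_sum]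
    refine Finset.sum_congr rfl (fun a _ => ?_)
    ring
  rw [h1, h2, h3]
  apply df_half
  have e2 : ∑ b, ∑ c, β b c * W c * (κ • W b) = ∑ b, ∑ c, β c b * W b * (κ • W c) := by
    rw [Finset.sum_comm]
  conv_lhs => rw [e2]
  rw [← Finset.sum_neg_distrib]
  refine Finset.sum_congr rfl (fun b _ => ?_)
  rw [← Finset.sum_neg_distrib]
  refine Finset.sum_congr rfl (fun c _ => ?_)
  rw [hβ c b, Algebra.smul_def, Algebra.smul_def]
  ring

/-- exterior derivative of a 2-form on three fields with `[X_i, X_{i+1}] = κ X_{i+2}` -/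
theorem d2_fields {A : Type*} [CommRing A] [Algebra ℝ A] (F : FrameData A)
    (X : Fin 3 → Fin 6 → A) (κ : ℝ)
    (h : ∀ i c, ∑ a, (X i a * nab1 F (X (i+1)) a c - X (i+1) a * nab1 F (X i) a c)
      = κ • X (i+2) c)
    (β : Fin 6 → Fin 6 → A) (hβ : Alt2 β) :
    ∑ a, ∑ b, ∑ c, d2 F β a b c * X 0 a * X 1 b * X 2 c =
      (∑ a, X 0 a * F.e a (∑ b, ∑ c, β b c * X 1 b * X 2 c))
      + (∑ a, X 1 a * F.e a (∑ b, ∑ c, β b c * X 2 b * X 0 c))
      + (∑ a, X 2 a * F.e a (∑ b, ∑ c, β b c * X 0 b * X 1 c)) := by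
  have p0 := df_P F κ (X 0) (X 1) (X 2) (fun c => h 0 c) β hβ
  have p1 := df_P F κ (X 1) (X 2) (X 0) (fun c => h 1 c) β hβ
  have p2 := df_P F κ (X 2) (X 0) (X 1) (fun c => h 2 c) β hβ
  have hsplit : ∀ (Y Z W : Fin 6 → A),
      ∑ a, Y a * F.e a (∑ b, ∑ c, β b c * Z b * W c)
        = (∑ a, Y a * ∑ b, ∑ c, nab2 F β a b c * Z b * W c)
          + (∑ a, Y a * ∑ b, ∑ c, β b c * nab1 F Z a b * W c)
          + ∑ a, Y a * ∑ b, ∑ c, β b c * Z b * nab1 F W a c := by
    intro Y Z W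
    rw [← Finset.sum_add_distrib, ← Finset.sum_add_distrib]
    refine Finset.sum_congr rfl (fun a _ => ?_)
    rw [df_leib]
    ring
  have hL : ∑ a, ∑ b, ∑ c, d2 F β a b c * X 0 a * X 1 b * X 2 c
      = (∑ a, X 0 a * ∑ b, ∑ c, nab2 F β a b c * X 1 b * X 2 c)
        + (∑ a, X 1 a * ∑ b, ∑ c, nab2 F β a b c * X 2 b * X 0 c)
        + ∑ a, X 2 a * ∑ b, ∑ c, nab2 F β a b c * X 0 b * X 1 c := by
    have e1 : ∑ a, X 0 a * ∑ b, ∑ c, nab2 F β a b c * X 1 b * X 2 c
        = ∑ a, ∑ b, ∑ c, nab2 F β a b c * X 0 a * X 1 b * X 2 c := by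
      simp only [Finset.mul_sum]
      refine Finset.sum_congr rfl (fun a _ => Finset.sum_congr rfl (fun b _ =>
        Finset.sum_congr rfl (fun c _ => ?_)))
      ring
    have e2 : ∑ a, X 1 a * ∑ b, ∑ c, nab2 F β a b c * X 2 b * X 0 c
        = ∑ a, ∑ b, ∑ c, nab2 F β b c a * X 0 a * X 1 b * X 2 c := by
      simp only [Finset.mul_sum]
      have e3 : ∑ a, ∑ b, ∑ c, nab2 F β b c a * X 0 a * X 1 b * X 2 c
          = ∑ b, ∑ c, ∑ a, nab2 F β b c a * X 0 a * X 1 b * X 2 c := by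
        rw [Finset.sum_comm]
        refine Finset.sum_congr rfl (fun b _ => ?_)
        rw [Finset.sum_comm]
      rw [e3]
      refine Finset.sum_congr rfl (fun a _ => Finset.sum_congr rfl (fun b _ =>
        Finset.sum_congr rfl (fun c _ => ?_)))
      ring
    have e4 : ∑ a, X 2 a * ∑ b, ∑ c, nab2 F β a b c * X 0 b * X 1 c
        = ∑ a, ∑ b, ∑ c, nab2 F β c a b * X 0 a * X 1 b * X 2 c := by
      simp only [Finset.mul_sum]
      have e3 : ∑ a, ∑ b, ∑ c, nab2 F β c a b * X 0 a * X 1 b * X 2 c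
          = ∑ c, ∑ a, ∑ b, nab2 F β c a b * X 0 a * X 1 b * X 2 c := by
        have e5 : ∀ a : Fin 6, ∑ b, ∑ c, nab2 F β c a b * X 0 a * X 1 b * X 2 c
            = ∑ c, ∑ b, nab2 F β c a b * X 0 a * X 1 b * X 2 c := fun a => Finset.sum_comm
        rw [Finset.sum_congr rfl (fun a _ => e5 a), Finset.sum_comm]
      rw [e3]
      refine Finset.sum_congr rfl (fun a _ => Finset.sum_congr rfl (fun b _ =>
        Finset.sum_congr rfl (fun c _ => ?_)))
      ring
    rw [e1, e2, e4, ← Finset.sum_add_distrib, ← Finset.sum_add_distrib]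
    refine Finset.sum_congr rfl (fun a _ => ?_)
    rw [← Finset.sum_add_distrib, ← Finset.sum_add_distrib]
    refine Finset.sum_congr rfl (fun b _ => ?_)
    rw [← Finset.sum_add_distrib, ← Finset.sum_add_distrib]
    refine Finset.sum_congr rfl (fun c _ => ?_)
    unfold d2
    ring
  rw [hL, hsplit (X 0) (X 1) (X 2), hsplit (X 1) (X 2) (X 0), hsplit (X 2) (X 0) (X 1)]
  linear_combination -p0 - p1 - p2

end FPF
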