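import Pool.Agent.Helper427.FPF.Defs
import Pool.Agent.Helper427.FPF.P_Rm_anti
import Pool.Agent.Helper427.FPF.P_Rm_bianchi



namespace FPF



theorem ricci2 {A : Type*} [CommRing A] [Algebra ℝ A] (F : FrameData A)
    (β : Fin 6 → Fin 6 → A) (a b c d : Fin 6) :
    nab3 F (nab2 F β) a b c d - nab3 F (nab2 F β) b a c d =
      -∑ g, (Rm F a b c g * β g d + Rm F a b d g * β c g) := by
  have ht := F.tors a b (β c d)
  simp only [nab3, nab2, Rm, map_sub, map_add, Derivation.leibniz, smul_eq_mul,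
    Fin.sum_univ_six] at ht ⊢
  linear_combination ht

theorem nab3_d2 {A : Type*} [CommRing A] [Algebra ℝ A] (F : FrameData A)
    (β : Fin 6 → Fin 6 → A) (a b c d : Fin 6) :
    nab3 F (d2 F β) a b c d = nab3 F (nab2 F β) a b c d + nab3 F (nab2 F β) a c d b +
      nab3 F (nab2 F β) a d b c := by
  simp only [nab3, d2, map_add, mul_add, Finset.sum_add_distrib]
  ring

theorem nab2_alt {A : Type*} [CommRing A] [Algebra ℝ A] (F : FrameData A)
    (β : Fin 6 → Fin 6 → A) (hβ : Alt2 β) (a b c : Fin 6) : nab2 F β a b c = - nab2 F β a c b := by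
  have h1 : ∀ x y, β x y = - β y x := hβ
  have h2 : ∑ g, F.Γ a b g * β g c = - ∑ g, F.Γ a b g * β c g := by
    rw [← Finset.sum_neg_distrib]
    exact Finset.sum_congr rfl fun g _ => by rw [h1 g c, mul_neg]
  have h3 : ∑ g, F.Γ a c g * β b g = - ∑ g, F.Γ a c g * β g b := by
    rw [← Finset.sum_neg_distrib]
    exact Finset.sum_congr rfl fun g _ => by rw [h1 b g, mul_neg]
  unfold nab2
  rw [h2, h3, h1 b c, map_neg]
  ring

theorem d3_d2_nab3_alt {A : Type*} [CommRing A] [Algebra ℝ A] (F : FrameData A)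
    (u : Fin 6 → Fin 6 → Fin 6 → A) (hu : ∀ a b c, u a b c = - u a c b) (a b c d : Fin 6) :
    nab3 F u a b c d = - nab3 F u a b d c := by
  have h2 : ∑ g, F.Γ a b g * u g c d = - ∑ g, F.Γ a b g * u g d c := by
    rw [← Finset.sum_neg_distrib]
    exact Finset.sum_congr rfl fun g _ => by rw [hu g c d, mul_neg]
  have h3 : ∑ g, F.Γ a c g * u b g d = - ∑ g, F.Γ a c g * u b d g := by
    rw [← Finset.sum_neg_distrib]
    exact Finset.sum_congr rfl fun g _ => by rw [hu b g d, mul_neg]
  have h4 : ∑ g, F.Γ a d g * u b c g = - ∑ g, F.Γ a d g * u b g c := by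
    rw [← Finset.sum_neg_distrib]
    exact Finset.sum_congr rfl fun g _ => by rw [hu b c g, mul_neg]
  unfold nab3
  rw [h2, h3, h4, hu b c d, map_neg]
  ring

theorem d3_d2 {A : Type*} [CommRing A] [Algebra ℝ A] (F : FrameData A)
    (β : Fin 6 → Fin 6 → A) (hβ : Alt2 β) (a b c d : Fin 6) : d3 F (d2 F β) a b c d = 0 := by
  have h1 : ∀ x y, β x y = - β y x := hβ
  have hN := d3_d2_nab3_alt F (nab2 F β) (nab2_alt F β hβ)
  have hR := ricci2 F β
  have hA := (Rm_anti F).1
  have hB := Rm_bianchi F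
  unfold d3
  rw [nab3_d2, nab3_d2, nab3_d2, nab3_d2]
  have key : ∑ g, (Rm F a b c g * β g d + Rm F a b d g * β c g) +
      ∑ g, (Rm F a c d g * β g b + Rm F a c b g * β d g) +
      ∑ g, (Rm F a d b g * β g c + Rm F a d c g * β b g) +
      ∑ g, (Rm F b c a g * β g d + Rm F b c d g * β a g) +
      ∑ g, (Rm F b d c g * β g a + Rm F b d a g * β c g) +
      ∑ g, (Rm F c d a g * β g b + Rm F c d b g * β a g) = 0 := by
    rw [← Finset.sum_add_distrib, ← Finset.sum_add_distrib, ← Finset.sum_add_distrib,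
      ← Finset.sum_add_distrib, ← Finset.sum_add_distrib]
    refine Finset.sum_eq_zero fun g _ => ?_
    rw [h1 d g, h1 b g, h1 c g, h1 a g]
    linear_combination β g d * (hB a b c g - hA a c b g) - β g c * (hB a b d g - hA a d b g) +
      β g b * (hB a c d g - hA a d c g) - β g a * (hB b c d g - hA b d c g)
  linear_combination hR a b c d + hR a c d b + hR a d b c + hR b c a d + hR b d c a + hR c d a b
    - key + hN c a b d - hN b c d a + hN c b d a - hN b d a c

end FPF
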