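import Pool.Agent.Helper427.FPF.Defs



namespace FPF



theorem pr_swap13 {A : Type*} [AddCommMonoid A] (f : Fin 6 → Fin 6 → Fin 6 → A) :
    ∑ b, ∑ c, ∑ g, f b c g = ∑ b, ∑ c, ∑ g, f g c b := by
  rw [Finset.sum_comm]
  have h : ∀ c, ∑ b, ∑ g, f b c g = ∑ b, ∑ g, f g c b := fun c => Finset.sum_comm
  simp_rw [h]
  rw [Finset.sum_comm]

theorem pr_swap23 {A : Type*} [AddCommMonoid A] (f : Fin 6 → Fin 6 → Fin 6 → A) :
    ∑ b, ∑ c, ∑ g, f b c g = ∑ b, ∑ c, ∑ g, f b g c :=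
  Finset.sum_congr rfl fun _ _ => Finset.sum_comm

theorem pr_cyc {A : Type*} [AddCommMonoid A] (f : Fin 6 → Fin 6 → Fin 6 → A) :
    ∑ a, ∑ b, ∑ c, f a b c = ∑ a, ∑ b, ∑ c, f b c a := by
  rw [pr_swap13 f, pr_swap23 (fun a b c => f c b a)]

theorem pr_cyc' {A : Type*} [AddCommMonoid A] (f : Fin 6 → Fin 6 → Fin 6 → A) :
    ∑ a, ∑ b, ∑ c, f a b c = ∑ a, ∑ b, ∑ c, f c a b := by
  rw [pr_cyc (fun a b c => f c a b)]

theorem pr_d2 {A : Type*} [CommRing A] [Algebra ℝ A] (F : FrameData A)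
    (β : Fin 6 → Fin 6 → A) (u : Fin 6 → Fin 6 → Fin 6 → A) (hu : Alt3 u) :
    ∑ a, ∑ b, ∑ c, d2 F β a b c * u a b c = 3 * ∑ a, ∑ b, ∑ c, nab2 F β a b c * u a b c := by
  have hc1 : ∀ a b c, u c a b = u a b c := fun a b c => by
    rw [hu.1 c a b, hu.2 a c b, neg_neg]
  have hc2 : ∀ a b c, u b c a = u a b c := fun a b c => by
    rw [hu.2 b c a, hu.1 b a c, neg_neg]
  have e1 : ∑ a, ∑ b, ∑ c, nab2 F β b c a * u a b c = ∑ a, ∑ b, ∑ c, nab2 F β a b c * u a b c := by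
    rw [pr_cyc' (fun a b c => nab2 F β b c a * u a b c)]
    simp_rw [hc1]
  have e2 : ∑ a, ∑ b, ∑ c, nab2 F β c a b * u a b c = ∑ a, ∑ b, ∑ c, nab2 F β a b c * u a b c := by
    rw [pr_cyc (fun a b c => nab2 F β c a b * u a b c)]
    simp_rw [hc2]
  unfold d2
  simp_rw [add_mul, Finset.sum_add_distrib]
  rw [e1, e2]
  ring

theorem pr_a {A : Type*} [CommRing A] [Algebra ℝ A] (F : FrameData A)
    (β : Fin 6 → Fin 6 → A) (u : Fin 6 → Fin 6 → Fin 6 → A) (a : Fin 6) :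
    ∑ b, ∑ c, (nab2 F β a b c * u a b c + β b c * nab3 F u a a b c) =
      ∑ b, ∑ c, (β b c * F.e a (u a b c) + u a b c * F.e a (β b c))
        - ∑ g, F.Γ a a g * ∑ b, ∑ c, β b c * u g b c := by
  have t1 : ∑ b, ∑ c, ∑ g, F.Γ a b g * β g c * u a b c =
      - ∑ b, ∑ c, ∑ g, β b c * (F.Γ a b g * u a g c) := by
    rw [pr_swap13 (fun b c g => β b c * (F.Γ a b g * u a g c))]
    simp_rw [← Finset.sum_neg_distrib]
    refine Finset.sum_congr rfl fun b _ => Finset.sum_congr rfl fun c _ =>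
      Finset.sum_congr rfl fun g _ => ?_
    rw [F.anti a g b]
    ring
  have t2 : ∑ b, ∑ c, ∑ g, F.Γ a c g * β b g * u a b c =
      - ∑ b, ∑ c, ∑ g, β b c * (F.Γ a c g * u a b g) := by
    rw [pr_swap23 (fun b c g => β b c * (F.Γ a c g * u a b g))]
    simp_rw [← Finset.sum_neg_distrib]
    refine Finset.sum_congr rfl fun b _ => Finset.sum_congr rfl fun c _ =>
      Finset.sum_congr rfl fun g _ => ?_
    rw [F.anti a g c]
    ring
  have t5 : ∑ b, ∑ c, ∑ g, β b c * (F.Γ a a g * u g b c) =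
      ∑ g, F.Γ a a g * ∑ b, ∑ c, β b c * u g b c := by
    rw [pr_cyc (fun b c g => β b c * (F.Γ a a g * u g b c))]
    refine Finset.sum_congr rfl fun g _ => ?_
    rw [Finset.mul_sum]
    refine Finset.sum_congr rfl fun b _ => ?_
    rw [Finset.mul_sum]
    refine Finset.sum_congr rfl fun c _ => ?_
    ring
  unfold nab2 nab3
  simp_rw [sub_mul, mul_sub, Finset.sum_add_distrib, Finset.sum_sub_distrib, Finset.sum_mul,
    Finset.mul_sum]
  simp_rw [Finset.mul_sum] at t5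
  rw [t1, t2, t5]
  have h0 : ∑ b, ∑ c, F.e a (β b c) * u a b c = ∑ b, ∑ c, u a b c * F.e a (β b c) := by
    simp_rw [mul_comm]
  rw [h0]
  ring

/-- `d2` is the formal adjoint of `-del3` (up to normalisation) -/
theorem pairing {A : Type*} [CommRing A] [Algebra ℝ A] (F : FrameData A)
    (β : Fin 6 → Fin 6 → A) (u : Fin 6 → Fin 6 → Fin 6 → A) (hu : Alt3 u) :
    (1/6 : ℝ) • (∑ a, ∑ b, ∑ c, d2 F β a b c * u a b c) + (1/2 : ℝ) • (∑ b, ∑ c, β b c * del3 F u b c)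
      = dv F (fun a => (1/2 : ℝ) • ∑ b, ∑ c, β b c * u a b c) := by
  have key : dv F (fun a => (1/2 : ℝ) • ∑ b, ∑ c, β b c * u a b c) =
      (1/2 : ℝ) • ∑ a, ∑ b, ∑ c, (nab2 F β a b c * u a b c + β b c * nab3 F u a a b c) := by
    unfold dv nab1
    rw [Finset.smul_sum]
    refine Finset.sum_congr rfl fun a _ => ?_
    rw [pr_a, smul_sub, Derivation.map_smul]
    congr 1
    · congr 1
      simp_rw [map_sum, Derivation.leibniz, smul_eq_mul]
    · rw [Finset.smul_sum]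
      refine Finset.sum_congr rfl fun g _ => ?_
      rw [mul_smul_comm]
  rw [key, pr_d2 F β u hu]
  have h2 : ∑ a, ∑ b, ∑ c, (nab2 F β a b c * u a b c + β b c * nab3 F u a a b c) =
      (∑ a, ∑ b, ∑ c, nab2 F β a b c * u a b c) + ∑ b, ∑ c, β b c * del3 F u b c := by
    simp_rw [Finset.sum_add_distrib]
    have h4 : ∑ b, ∑ c, β b c * del3 F u b c = ∑ b, ∑ c, ∑ a, β b c * nab3 F u a a b c := by
      refine Finset.sum_congr rfl fun b _ => Finset.sum_congr rfl fun c _ => ?_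
      unfold del3
      rw [Finset.mul_sum]
    rw [h4, pr_cyc (fun b c a => β b c * nab3 F u a a b c)]
  rw [h2, smul_add]
  congr 1
  have h3 : (3 : A) * ∑ a, ∑ b, ∑ c, nab2 F β a b c * u a b c =
      (3 : ℝ) • ∑ a, ∑ b, ∑ c, nab2 F β a b c * u a b c := by
    rw [Algebra.smul_def, map_ofNat]
  rw [h3, smul_smul]
  norm_num

end FPF
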