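import Pool.Agent.Helper427.FPF.Defs



namespace FPF



theorem wedge_alt {A : Type*} [CommRing A] [Algebra ℝ A] (θ : Fin 3 → Fin 6 → A) :
    Alt3 (wedge θ) := by
  constructor
  · intro a b c
    unfold wedge
    ring
  · intro a b c
    unfold wedge
    ring

end FPF
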