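import Pool.Agent.Helper427.FPF.Defs



namespace FPF



theorem wc_prod {A : Type*} [CommRing A] [Algebra ℝ A] (F : FrameData A) (α β γ : Fin 6 → A)
    (a b c d : Fin 6) :
    nab3 F (fun b c d => α b * β c * γ d) a b c d =
      nab1 F α a b * β c * γ d + α b * nab1 F β a c * γ d + α b * β c * nab1 F γ a d := by
  unfold nab3 nab1
  rw [Derivation.leibniz, Derivation.leibniz]
  simp only [smul_eq_mul]
  have e1 : ∑ g, F.Γ a b g * (α g * β c * γ d) = (∑ g, F.Γ a b g * α g) * β c * γ d := by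
    rw [Finset.sum_mul, Finset.sum_mul]
    exact Finset.sum_congr rfl fun g _ => by ring
  have e2 : ∑ g, F.Γ a c g * (α b * β g * γ d) = α b * (∑ g, F.Γ a c g * β g) * γ d := by
    rw [Finset.mul_sum, Finset.sum_mul]
    exact Finset.sum_congr rfl fun g _ => by ring
  have e3 : ∑ g, F.Γ a d g * (α b * β c * γ g) = α b * β c * (∑ g, F.Γ a d g * γ g) := by
    rw [Finset.mul_sum]
    exact Finset.sum_congr rfl fun g _ => by ring
  rw [e1, e2, e3]
  ring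

theorem wc_add {A : Type*} [CommRing A] [Algebra ℝ A] (F : FrameData A)
    (u v : Fin 6 → Fin 6 → Fin 6 → A) (a b c d : Fin 6) :
    nab3 F (fun b c d => u b c d + v b c d) a b c d = nab3 F u a b c d + nab3 F v a b c d := by
  unfold nab3
  simp only [map_add, mul_add, Finset.sum_add_distrib]
  ring

theorem wc_sub {A : Type*} [CommRing A] [Algebra ℝ A] (F : FrameData A)
    (u v : Fin 6 → Fin 6 → Fin 6 → A) (a b c d : Fin 6) :
    nab3 F (fun b c d => u b c d - v b c d) a b c d = nab3 F u a b c d - nab3 F v a b c d := by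
  unfold nab3
  simp only [map_sub, mul_sub, Finset.sum_sub_distrib]
  ring

theorem wc_wedge {A : Type*} [CommRing A] [Algebra ℝ A] (F : FrameData A)
    (θ : Fin 3 → Fin 6 → A) (a b c d : Fin 6) :
    nab3 F (wedge θ) a b c d =
      (nab1 F (θ 0) a b * θ 1 c * θ 2 d + θ 0 b * nab1 F (θ 1) a c * θ 2 d
        + θ 0 b * θ 1 c * nab1 F (θ 2) a d)
      + (nab1 F (θ 1) a b * θ 2 c * θ 0 d + θ 1 b * nab1 F (θ 2) a c * θ 0 d
        + θ 1 b * θ 2 c * nab1 F (θ 0) a d)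
      + (nab1 F (θ 2) a b * θ 0 c * θ 1 d + θ 2 b * nab1 F (θ 0) a c * θ 1 d
        + θ 2 b * θ 0 c * nab1 F (θ 1) a d)
      - (nab1 F (θ 0) a b * θ 2 c * θ 1 d + θ 0 b * nab1 F (θ 2) a c * θ 1 d
        + θ 0 b * θ 2 c * nab1 F (θ 1) a d)
      - (nab1 F (θ 2) a b * θ 1 c * θ 0 d + θ 2 b * nab1 F (θ 1) a c * θ 0 d
        + θ 2 b * θ 1 c * nab1 F (θ 0) a d)
      - (nab1 F (θ 1) a b * θ 0 c * θ 2 d + θ 1 b * nab1 F (θ 0) a c * θ 2 d
        + θ 1 b * θ 0 c * nab1 F (θ 2) a d) := by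
  rw [← wc_prod, ← wc_prod, ← wc_prod, ← wc_prod, ← wc_prod, ← wc_prod, ← wc_add, ← wc_add,
    ← wc_sub, ← wc_sub, ← wc_sub]
  rfl

theorem wedge_closed {A : Type*} [CommRing A] [Algebra ℝ A] (F : FrameData A)
    (θ : Fin 3 → Fin 6 → A) (κ : ℝ)
    (h : ∀ i a b, nab1 F (θ i) a b - nab1 F (θ i) b a =
      κ • (θ (i+1) a * θ (i+2) b - θ (i+1) b * θ (i+2) a)) (a b c d : Fin 6) :
    d3 F (wedge θ) a b c d = 0 := by
  obtain ⟨K, hK⟩ : ∃ K : A, K = algebraMap ℝ A κ := ⟨_, rfl⟩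
  have h0 : ∀ a b, nab1 F (θ 0) a b =
      nab1 F (θ 0) b a + K * (θ 1 a * θ 2 b - θ 1 b * θ 2 a) := by
    intro a b
    have h1 := h 0 a b
    rw [Algebra.smul_def, ← hK] at h1
    exact sub_eq_iff_eq_add'.1 h1
  have h1 : ∀ a b, nab1 F (θ 1) a b =
      nab1 F (θ 1) b a + K * (θ 2 a * θ 0 b - θ 2 b * θ 0 a) := by
    intro a b
    have h1 := h 1 a b
    rw [Algebra.smul_def, ← hK] at h1
    exact sub_eq_iff_eq_add'.1 h1
  have h2 : ∀ a b, nab1 F (θ 2) a b =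
      nab1 F (θ 2) b a + K * (θ 0 a * θ 1 b - θ 0 b * θ 1 a) := by
    intro a b
    have h1 := h 2 a b
    rw [Algebra.smul_def, ← hK] at h1
    exact sub_eq_iff_eq_add'.1 h1
  unfold d3
  rw [wc_wedge, wc_wedge, wc_wedge, wc_wedge]
  rw [h0 a b, h0 a c, h0 a d, h0 b c, h0 b d, h0 c d, h1 a b, h1 a c, h1 a d, h1 b c, h1 b d,
    h1 c d, h2 a b, h2 a c, h2 a d, h2 b c, h2 b d, h2 c d]
  ring

end FPF
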